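import Pool.Agent.Helper59.ML.T2

/-!
# Project ML (MP_bf413e_co), packet T1
-/

set_option autoImplicit false

namespace Pool.Agent.Helper18.ML

open scoped Classical
open Finset
open Pool.Agent.Helper94.KC (Proper InChain KStep KEq AllEq dR QG Even2)
open Pool.Agent.Helper30.ML

theorem pT1 (hKB : StmtKB) : Pool.Agent.Helper30.ML.StmtT1 := by
  intro V _ G v w hw hv hX f hf h01
  have n0 := hf v (w 0) (hv 0)
  have n2 := hf v (w 2) (hv 2)
  have n3 := hf v (w 3) (hv 3)
  have n4 := hf v (w 4) (hv 4)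
  by_cases h02 : f (w 0) = f (w 2)
  · exact ⟨f, Relation.ReflTransGen.refl, 0, 2, by decide, by decide, by decide, h02⟩
  by_cases h03 : f (w 0) = f (w 3)
  · exact ⟨f, Relation.ReflTransGen.refl, 0, 3, by decide, by decide, by decide, h03⟩
  by_cases h04 : f (w 0) = f (w 4)
  · exact ⟨f, Relation.ReflTransGen.refl, 0, 4, by decide, by decide, by decide, h04⟩
  by_cases h23 : f (w 2) = f (w 3)
  · exact ⟨f, Relation.ReflTransGen.refl, 2, 3, by decide, by decide, by decide, h23⟩
  by_cases h24 : f (w 2) = f (w 4)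
  · exact ⟨f, Relation.ReflTransGen.refl, 2, 4, by decide, by decide, by decide, h24⟩
  by_cases h34 : f (w 3) = f (w 4)
  · exact ⟨f, Relation.ReflTransGen.refl, 3, 4, by decide, by decide, by decide, h34⟩
  rcases Pool.Agent.Helper59.ML.core hKB G f v (w 2) (w 4) (w 3) (w 0) h23
    (fun h => h02 h.symm) (fun h => h34 h.symm) (fun h => h04 h.symm) n2 n4 n3 n0 with
    ⟨g, hg, h | h⟩ | ⟨A, B, c1, c2, c3, c4, c5, c6, c7, c8, c9⟩
  · exact ⟨g, hg, 2, 4, by decide, by decide, by decide, h⟩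
  · exact ⟨g, hg, 3, 0, by decide, by decide, by decide, h⟩
  · exact (hX 2 A B c1 c2 c3 c4 c5 c6 c7 c8 c9).elim

end Pool.Agent.Helper18.ML
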